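import Mathlib
import Pool.Agent.H945R2.PlaneF

/-!
# A plane with trivial normal bundle in a six-dimensional Fano manifold of Picard number one

There is a Fano manifold `X ⊆ ℙ¹⁹` of dimension `6` with Picard group `ℤ` which contains a linear
plane with trivial normal bundle (so `k = 2` and `n = 6`, with `2 < 2 k ≤ n`).

The sixfold is the variety of three-dimensional commutative subalgebras of the algebra of
`3 × 3` matrices (equivalently: the moduli space of stable Kronecker modules of dimension vector
`(2, 3)` with three arrows, or the variety of reductions for the Severi variety `ℙ² × ℙ²` of Iliev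
and Manivel); its charts are affine spaces, with the structure constants of the algebra as
coordinates. The plane consists of the subalgebras which contain a fixed idempotent of rank one.
-/

namespace Pool.Agent.Results.MP_b7b3c1_ag.TrivialPlane

open Pool.Agent.H945R2

theorem result : ∃ (X : Variety) (e : X.Embedding 19) (V : Submodule ℂ (Fin (19 + 1) → ℂ)),
    X.dim = 6 ∧ X.IsFano ∧ Nonempty (X.Pic ≃+ ℤ) ∧
    Module.finrank ℂ V = 3 ∧ e.ContainsLinear V ∧ e.TrivialNormalBundle V :=
  ⟨X, emb, plane, rfl, isFano_X, pic_X, finrank_plane, containsLinear, trivialNormal⟩

end Pool.Agent.Results.MP_b7b3c1_ag.TrivialPlane
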